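import Pool.Agent.W543.KU.CharCyc

/-!
# The Kunneth conjecture and characteristic polynomials of correspondences

For every Weil cohomology theory `W` and every variety `X`, the following are equivalent: all
Kunneth components of the diagonal of `X` are in the `K`-span of the algebraic classes; for any two
different degrees `i`, `j` there is a cycle (which may depend on `i` and `j`) whose characteristic
polynomials on `H^i(X)` and on `H^j(X)` are coprime; there is one cycle whose characteristic
polynomials on all the `H^i(X)` are pairwise coprime.
-/

open Pool.Agent.H914 Pool.Agent.W543.KU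

universe u v

namespace Pool.Agent.Results.MP_a60482_ag.CoprimeCharpolys

/-- **The Kunneth conjecture and characteristic polynomials.** -/
theorem result {k : Type u} [Field k] [IsAlgClosed k] {𝒱 : VarClass k} {ops : CycleOps 𝒱}
    (W : WeilCohomology.{u, v} ops) (X : 𝒱.Obj) :
    [KunnethSpan W X,
     ∀ i j, i ≠ j → ∃ z, (X.prod X).IsCyc X.dim z ∧
      IsCoprime (charOn (W.isInternal X) i (W.corr (W.cl (X.prod X) z)))
        (charOn (W.isInternal X) j (W.corr (W.cl (X.prod X) z))),
     ∃ z, (X.prod X).IsCyc X.dim z ∧ ∀ i j, i ≠ j →
      IsCoprime (charOn (W.isInternal X) i (W.corr (W.cl (X.prod X) z)))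
        (charOn (W.isInternal X) j (W.corr (W.cl (X.prod X) z)))].TFAE :=
  kunnethSpan_tfae W X

end Pool.Agent.Results.MP_a60482_ag.CoprimeCharpolys
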