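import Pool.Agent.W543.KU.Rank

/-!
# The rank of the group of correspondences modulo numerical equivalence

For every Weil cohomology theory `W` and every variety `X` of dimension `n`, the rank of the group
of cycles of codimension `n` on `X × X` modulo numerical equivalence is at most the sum over `i` of
the ranks of the trace forms of the correspondences on `H^i(X)`, and equality holds if and only if
all Kunneth components of the diagonal are in the `K`-span of the algebraic classes.
-/

open Pool.Agent.H914 Pool.Agent.W543.KU

universe u v

namespace Pool.Agent.Results.MP_a60482_ag.RankAdditivity

/-- **The Kunneth conjecture and the rank of the group of correspondences.** -/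
theorem result {k : Type u} [Field k] [IsAlgClosed k] {𝒱 : VarClass k} {ops : CycleOps 𝒱}
    (W : WeilCohomology.{u, v} ops) (X : 𝒱.Obj) :
    numRank ops X ≤ ∑ i ∈ Finset.range (2 * X.dim + 1), traceRank W X i ∧
    (numRank ops X = ∑ i ∈ Finset.range (2 * X.dim + 1), traceRank W X i ↔ KunnethSpan W X) :=
  numRank_le W X

end Pool.Agent.Results.MP_a60482_ag.RankAdditivity
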