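import Pool.Agent.W543.KU.RatTr

/-!
# Kunneth components with rational and with `K`-linear coefficients

For every Weil cohomology theory `W` with coefficient field `K` and every variety `X`, all Kunneth
components of the diagonal are classes of cycles with rational coefficients if and only if they are
`K`-linear combinations of classes of cycles and all algebraic correspondences of degree zero have
rational traces on all the `H^i(X)`.
-/

open Pool.Agent.H914 Pool.Agent.W543.KU

universe u v

namespace Pool.Agent.Results.MP_a60482_ag.RationalTraces

/-- **The two forms of the Kunneth conjecture.** -/
theorem result {k : Type u} [Field k] [IsAlgClosed k] {𝒱 : VarClass k} {ops : CycleOps 𝒱}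
    (W : WeilCohomology.{u, v} ops) (X : 𝒱.Obj) :
    KunnethStd W X ↔ KunnethSpan W X ∧ HasRationalTraces W X :=
  kunneth_iff_rational_traces

end Pool.Agent.Results.MP_a60482_ag.RationalTraces
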