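import Pool.Agent.W543.KU.Base

/-!
# The Kunneth conjecture and the subspaces stable under correspondences

For every Weil cohomology theory `W` with coefficient field `K` and every variety `X`, all Kunneth
components of the diagonal of `X` lie in the `K`-span of the algebraic classes if and only if every
subspace of `H(X)` which is stable under all algebraic correspondences of degree zero is a graded
subspace. No semisimplicity, no Lefschetz property and no comparison of homological and numerical
equivalence is assumed.
-/

open Pool.Agent.H914 Pool.Agent.W543.KU

universe u v

namespace Pool.Agent.Results.MP_a60482_ag.StableSubspaces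

/-- **The Kunneth conjecture holds if and only if all stable subspaces are graded.** -/
theorem result {k : Type u} [Field k] [IsAlgClosed k] {𝒱 : VarClass k} {ops : CycleOps 𝒱}
    (W : WeilCohomology.{u, v} ops) (X : 𝒱.Obj) :
    KunnethSpan W X ↔
      ∀ N : Submodule W.K (W.H X), IsStableSub W X N → IsGradedSub (W.gr X) N :=
  kunnethSpan_iff_graded

end Pool.Agent.Results.MP_a60482_ag.StableSubspaces
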